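import Pool.Agent.V1179.MH.FM7

set_option autoImplicit false

/-!
# Record prime gaps around points of almost all modular hyperbolas in short boxes

Write `f(Z) = log Z (log₂ Z)² log₄ Z / (log₃ Z)²` (the size of the longest prime gaps below `Z` that are
known, from the starting library).

Let `k ≥ 2` and `ε > 0`. There are `κ > 0` and `P₀` such that for every prime `P ≥ P₀`, every box
`[M₁, M₁ + L₁) × ⋯ × [M_k, M_k + L_k)` in `[0, P)^k` with sides `L_j ≥ √P` and
`L₁ ⋯ L_k ≥ P ^ (k / 2 + ε)` and every `S ⊆ {1, …, k}`: for all but at most `P ^ (1 - ε / 2)` of the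
integers `a` in `(0, P)` the congruence `∏_{j ∈ S} x_j ≡ a ∏_{j ∉ S} x_j (mod P)` has a solution in the
box with no prime within `κ f(P)` of any of the `k` numbers `x₁, …, x_k`.

For `k = 2`: for any two intervals `I, J` of length `P ^ (1/2 + ε)` almost every residue class is a
product `x y` (and almost every class is a quotient `x / y`) of `x ∈ I` and `y ∈ J` that both lie in the
middle of prime gaps of this size. The size `P ^ (1/2)` of the intervals is best possible up to `ε`.

Proof: a bound `P ^ (1 + o(1)) L²` for the fourth moment of the sums of the nonprincipal characters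
modulo `P` over progressions of small moduli in an arbitrary interval of length `L ≥ √P` (Gauss sums, and
a count of `l₁ l₂ ≡ l₃ l₄ (mod P)` with the divisor bound), the variance of the number of solutions over
`a`, and the covering criterion for vectors of integers of the library (`Pool.Agent.Y961.JR.critJ`).
-/

namespace Pool.Agent.Results.MP_f9960f_nt.AlmostAllHyperbolas

/-- the size of the largest known prime gaps below `Z` -/
noncomputable def f (Z : ℝ) : ℝ :=
  Real.log Z * (Real.log (Real.log Z)) ^ 2 * Real.log (Real.log (Real.log (Real.log Z))) /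
    (Real.log (Real.log (Real.log Z))) ^ 2

/-- no prime is at distance at most `d` from `x` -/
def PrimeFreeAround (x d : ℝ) : Prop := ∀ q : ℕ, q.Prime → d < |(q : ℝ) - x|

theorem result (k : ℕ) (hk : 2 ≤ k) (ε : ℝ) (hε : 0 < ε) :
    ∃ κ : ℝ, 0 < κ ∧ ∃ P₀ : ℕ, ∀ P : ℕ, P₀ ≤ P → P.Prime →
    ∀ M L : Fin k → ℕ, (∀ j, M j + L j ≤ P) → (∀ j, Real.sqrt P ≤ L j) →
    (P : ℝ) ^ ((k : ℝ) / 2 + ε) ≤ ∏ j, (L j : ℝ) →
    ∀ S : Finset (Fin k), ∃ B : Finset ℕ, (B.card : ℝ) ≤ (P : ℝ) ^ (1 - ε / 2) ∧
    ∀ a : ℕ, 0 < a → a < P → a ∉ B →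
      ∃ x : Fin k → ℕ, (∀ j, M j ≤ x j ∧ x j < M j + L j) ∧
        ∏ j ∈ S, x j ≡ a * ∏ j ∈ Sᶜ, x j [MOD P] ∧
        ∀ j, PrimeFreeAround (x j) (κ * f P) := by
  obtain ⟨m, rfl⟩ : ∃ m, k = m + 2 := ⟨k - 2, by omega⟩
  exact Pool.Agent.V1179.MH.almost_all m ε hε

end Pool.Agent.Results.MP_f9960f_nt.AlmostAllHyperbolas
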