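import Pool.Agent.V11251.SI.Fin2

/-!
# Several intervals of polylogarithmic length containing primes, at distances in automatic sets

The Vinogradov bound for primes in short intervals, the passage from the first moment to a positive proportion (Selberg's
upper bound function) and the laws of the random integers are in the starting files (`Pool.Agent.W301.SS`,
`Pool.Agent.TH646.TT`, `Pool.Agent.TH894.LH`, `Pool.Agent.W93.AU`, `Pool.Agent.TH872`); new is the second moment method for
functions depending on the length and arbitrary laws, for several intervals at once, and the theorem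
(`Pool.Agent.V11251.SI`).
-/

set_option autoImplicit false

namespace Pool.Agent.Results.MP_f9960f_nt.AutomaticPlaces

open Finset

open Classical in
/-- The integers `0 ≤ v < N` whose base `b` digits (from the least significant to the most significant one) are accepted
by the automaton `M`. -/
noncomputable def auto {σ : Type} (b : ℕ) (M : DFA ℕ σ) (N : ℕ) : Finset ℕ :=
  (range N).filter fun v => Nat.digits b v ∈ M.accepts

/-- The number of the primes in `(n, n + y]`. -/
def primesIn (n y : ℕ) : ℕ := ((Ioc n (n + y)).filter Nat.Prime).card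

open Classical in
/-- The set `A` has good translates at the vector of distances `x`: for all `(log N) ^ K ≤ y i ≤ N` the average over
`a ∈ A` of the product of the `s` numbers `primesIn (a + x i) (y i) / (y i / log N)` lies between `1 - ε` and `1 + ε`, and
at least `(1 / 4 ^ s - ε) |A|` elements `a` of `A` have at least `t (y i) / log N` primes in `(a + x i, a + x i + y i]` for
all `i` simultaneously. -/
noncomputable def Good {s : ℕ} (ε t : ℝ) (K N : ℕ) (A : Finset ℕ) (x : Fin s → ℕ) : Prop :=
  ∀ y : Fin s → ℕ, (∀ i, Real.log N ^ K ≤ y i ∧ y i ≤ N) →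
    |∑ a ∈ A, ∏ i, ((primesIn (a + x i) (y i) : ℝ) * Real.log N / y i) - A.card| ≤ ε * A.card ∧
    (1 / 4 ^ s - ε) * A.card ≤
      ((A.filter fun a => ∀ i, t * y i ≤ (primesIn (a + x i) (y i) : ℝ) * Real.log N).card : ℝ)

lemma good_iff {s : ℕ} (ε t : ℝ) (K N : ℕ) (A : Finset ℕ) (x : Fin s → ℕ) :
    Good ε t K N A x ↔ Pool.Agent.V11251.SI.Gd2 ε t K N A x := Iff.rfl

open Classical in
/-- Let `s` be fixed. For every `i < s` let `S i` be a `b i`-automatic set: the set of the integers `v ≥ 0` whose digits in
base `b i` are accepted by a finite automaton `M i` (for example the set of the integers without the digit `7`, or any set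
given by a regular expression), and suppose that `S i` is not sparse: the number of its elements below `N` is not bounded
by a power of `log N`. Let the multipliers `κ i ≠ 0`, `B`, `T`, `U` and `ε > 0` be fixed. Then there are `t > 0` and a `K`
such that for all large `N`, all integers `c i` with `|c i| ≤ B N` and ARBITRARY sets `A 0, ..., A (L - 1)`,
`L ≤ log ^ T N`, of at least `N / log ^ T N` integers in `[1, N]` each, all the vectors `(v 0, ..., v (s - 1))` of elements
`v i < N` of `S i`, with the exception of a proportion of at most `1 / log ^ U N` of them, have the following property if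
the integers `x i = c i + (κ i) (v i)` lie in `[1, N]`: for all the sets `A l` and all integers `y 0, ..., y (s - 1)` between `(log N) ^ K` and `N`, the average over `a ∈ A l` of
the product of the `s` ratios (number of the primes in `(a + x i, a + x i + y i]`) / `(y i / log N)` lies between `1 - ε`
and `1 + ε`, and at least `(1 / 4 ^ s - ε) |A l|` elements `a` of `A l` have at least `t (y i) / log N` primes in each of
the `s` intervals `(a + x i, a + x i + y i]`, simultaneously. -/
theorem result (s : ℕ) (b : Fin s → ℕ) (hb : ∀ i, 2 ≤ b i) (σ : Fin s → Type) [∀ i, Finite (σ i)] (M : ∀ i, DFA ℕ (σ i))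
    (hM : ∀ i, ∀ k : ℕ, ∃ᶠ N : ℕ in Filter.atTop, Real.log N ^ k < ((auto (b i) (M i) N).card : ℝ))
    (κ : Fin s → ℤ) (hκ : ∀ i, κ i ≠ 0) (B T U : ℕ) (ε : ℝ)
    (hε : 0 < ε) : ∃ t : ℝ, 0 < t ∧ ∃ K N₀ : ℕ, ∀ N, N₀ ≤ N → ∀ c : Fin s → ℤ, (∀ i, |c i| ≤ B * N) →
    ∀ L : ℕ, (L : ℝ) ≤ Real.log N ^ T → ∀ A : ℕ → Finset ℕ,
    (∀ l < L, A l ⊆ Icc 1 N ∧ (N : ℝ) / Real.log N ^ T ≤ (A l).card) →
    (((Fintype.piFinset fun i => auto (b i) (M i) N).filter (fun v : Fin s → ℕ =>
      (∀ i, 1 ≤ c i + κ i * (v i : ℤ) ∧ c i + κ i * (v i : ℤ) ≤ N) ∧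
      ∃ l < L, ¬ Good ε t K N (A l) (fun i => (c i + κ i * (v i : ℤ)).toNat))).card : ℝ) ≤
      ((Fintype.piFinset fun i => auto (b i) (M i) N).card : ℝ) / Real.log N ^ U := by
  have inst : ∀ i, Fintype (σ i) := fun i => Fintype.ofFinite (σ i)
  obtain ⟨t, ht, K, N₀, h⟩ := Pool.Agent.V11251.SI.au2 s σ b hb M hM κ hκ B T U ε hε
  refine ⟨t, ht, K, N₀ + 3, fun N hN c hc L hL A hA => ?_⟩
  have hlog := Pool.Agent.V11251.DS.log_one (by omega : 3 ≤ N)
  have hp : 0 < Real.log N ^ T := by positivity
  exact h N (by omega) c hc L hL A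
    (fun l hl => ⟨(hA l hl).1, (div_le_iff₀ hp).1 (hA l hl).2⟩) _ (fun v hv => hv)

end Pool.Agent.Results.MP_f9960f_nt.AutomaticPlaces
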