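import Pool.Agent.V1179.MH.SF7

set_option autoImplicit false

/-!
# Record prime gaps around the numerators and denominators of consecutive convergents

Write `f(Z) = log Z (log₂ Z)² log₄ Z / (log₃ Z)²` (the size of the longest prime gaps below `Z` that are
known, from the starting library).

For every `k` there is `κ > 0` such that for all real numbers `0 < x < y` there is `T₀` such that for
every `T ≥ T₀` there are positive integers `p_j`, `q_j`, `t_j` (`j ≥ 0`) with

* `p_1 q_0 - p_0 q_1 = 1`, `q_0 < q_1`, `p_{j+2} = t_j p_{j+1} + p_j`, `q_{j+2} = t_j q_{j+1} + q_j`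
  (so that the fractions `p_j / q_j` are consecutive convergents of a continued fraction; two
  neighbours in the list are neighbours in a Farey sequence),
* `x < p_j / q_j < y`,
* `p_j ≤ T`, `q_j ≤ T` and no prime lies within `κ f(T)` of `p_j` or of `q_j`, for all `j < k`.

Proof: the covering theorem of the library (`Pool.Agent.Y961.JR.coverAbs`) for a new kind of family,
the values of polynomial maps (`Pool.Agent.V1179.MH.SF.critF`).  Modulo a prime, the numerators and
denominators as functions of the partial quotients are almost uniform and almost pairwise independent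
(counting in `SL₂` and with continuants); modulo all small primes together they can be chosen all
close to a given residue class, because the matrix `(e, e - 1; e + 1, e)` has determinant one.
-/

namespace Pool.Agent.Results.MP_f9960f_nt.ConsecutiveConvergents

/-- the size of the largest known prime gaps below `Z` -/
noncomputable def f (Z : ℝ) : ℝ :=
  Real.log Z * (Real.log (Real.log Z)) ^ 2 * Real.log (Real.log (Real.log (Real.log Z))) /
    (Real.log (Real.log (Real.log Z))) ^ 2

/-- no prime is at distance at most `d` from `x` -/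
def PrimeFreeAround (x d : ℝ) : Prop := ∀ q : ℕ, q.Prime → d < |(q : ℝ) - x|

theorem result (k : ℕ) : ∃ κ : ℝ, 0 < κ ∧ ∀ x y : ℝ, 0 < x → x < y →
    ∃ T₀ : ℝ, ∀ T : ℝ, T₀ ≤ T → ∃ p q t : ℕ → ℕ,
      p 1 * q 0 = p 0 * q 1 + 1 ∧ q 0 < q 1 ∧
      (∀ j, 1 ≤ t j ∧ p (j + 2) = t j * p (j + 1) + p j ∧ q (j + 2) = t j * q (j + 1) + q j) ∧
      (∀ j, 1 ≤ p j ∧ 1 ≤ q j ∧ x < (p j : ℝ) / q j ∧ (p j : ℝ) / q j < y) ∧
      ∀ j, j < k → ((p j : ℝ) ≤ T ∧ (q j : ℝ) ≤ T) ∧
        PrimeFreeAround (p j) (κ * f T) ∧ PrimeFreeAround (q j) (κ * f T) :=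
  Pool.Agent.V1179.MH.SF.convergents k

end Pool.Agent.Results.MP_f9960f_nt.ConsecutiveConvergents
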