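import Pool.Agent.V1179.MH.Hyper

set_option autoImplicit false

/-!
# Record prime gaps around all coordinates of a point of a modular hyperbola

Write `f(Z) = log Z (log₂ Z)² log₄ Z / (log₃ Z)²` (the size of the longest prime gaps below `Z` that are
known, from the starting library).

Let `k ≥ 2` and `ε > 0`. There are `κ > 0` and `P₀` such that for every prime `P ≥ P₀`, every integer
`a` that is not divisible by `P` and every box `[M₁, M₁ + L₁) × ⋯ × [M_k, M_k + L_k)` in `[0, P)^k`
with `L₁ ⋯ L_k ≥ P ^ (k - 1/2 + ε)`, the congruence `x₁ ⋯ x_k ≡ a (mod P)` has a solution in the box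
with no prime within `κ f(P)` of any of the `k` numbers `x₁, …, x_k`.

For `k = 2` and `a = 1`: every interval of length `P ^ (3/4 + ε)` contains an integer `x` whose inverse
`y` modulo `P` lies in any other prescribed interval of that length, such that both `x` and `y` lie in
the middle of prime gaps of this size.

Proof: the covering criterion for vectors of integers of the library (`Pool.Agent.Y961.JR.critJ`), whose
hypothesis (the distribution of the vector in residue classes modulo all small numbers) is verified by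
completion modulo `P` and Weil's bound for Kloosterman sums (`Pool.Agent.H498R2.Kl`).
-/

namespace Pool.Agent.Results.MP_f9960f_nt.ModularHyperbola

/-- the size of the largest known prime gaps below `Z` -/
noncomputable def f (Z : ℝ) : ℝ :=
  Real.log Z * (Real.log (Real.log Z)) ^ 2 * Real.log (Real.log (Real.log (Real.log Z))) /
    (Real.log (Real.log (Real.log Z))) ^ 2

/-- no prime is at distance at most `d` from `x` -/
def PrimeFreeAround (x d : ℝ) : Prop := ∀ q : ℕ, q.Prime → d < |(q : ℝ) - x|

theorem result (k : ℕ) (hk : 2 ≤ k) (ε : ℝ) (hε : 0 < ε) :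
    ∃ κ : ℝ, 0 < κ ∧ ∃ P₀ : ℕ, ∀ P : ℕ, P₀ ≤ P → P.Prime → ∀ a : ℤ, ¬ (P : ℤ) ∣ a →
    ∀ M L : Fin k → ℕ, (∀ j, M j + L j ≤ P) →
    (P : ℝ) ^ ((k : ℝ) - 1 / 2 + ε) ≤ ∏ j, (L j : ℝ) →
    ∃ x : Fin k → ℕ, (∀ j, M j ≤ x j ∧ x j < M j + L j) ∧ (P : ℤ) ∣ ∏ j, (x j : ℤ) - a ∧
      ∀ j, PrimeFreeAround (x j) (κ * f P) := by
  obtain ⟨m, rfl⟩ : ∃ m, k = m + 2 := ⟨k - 2, by omega⟩
  exact Pool.Agent.V1179.MH.hyperbola m ε hε

end Pool.Agent.Results.MP_f9960f_nt.ModularHyperbola
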